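import Pool.Agent.U410.DJ.Final

set_option autoImplicit false

namespace Pool.Agent.Results.MP_2da123_co.DimFive

open Pool.Agent.Results.MP_2da123_co.DimSix

/-- For every finite graph `G` some join `G + K_n` with `n ≥ 1` is the graph of a `5`-polytope, so
`d(G) ≤ 5`; and if `G` contains a complete graph on four vertices, then `d(G)` is `4` or `5`.

Construction: points of `ℝ^5` are the moment vectors `(x, y, x², xy, y² + κ)`; a vertex of `G` gets
`κ = s²` at a generic point of the plane, a vertex of `K_n` gets `κ = 0`. For every non-adjacent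
pair three vertices of `K_n` near the line of the pair give an exact convex relation which kills
the edge; all other pairs are edges, because of explicit nonnegative quadratic polynomials, once
`s` is small. -/
theorem result {V : Type} [Fintype V] (G : SimpleGraph V) :
    (∃ n ≥ 1, IsPolytopal 5 (joinComplete G n)) ∧ dJoin G ≤ 5 ∧
      ((∃ s : Finset V, G.IsNClique 4 s) → dJoin G = 4 ∨ dJoin G = 5) := by
  have h5 := Pool.Agent.U410.DJ.polytopal_five G
  have hle : dJoin G ≤ 5 := Nat.sInf_le h5
  refine ⟨h5, hle, ?_⟩
  rintro ⟨s, hs⟩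
  have hne : {d | ∃ n ≥ 1, IsPolytopal d (joinComplete G n)}.Nonempty := ⟨5, h5⟩
  obtain ⟨n, hn, h⟩ := Nat.sInf_mem hne
  have h4 : 4 ≤ dJoin G := lower G s hs _ n hn h
  omega

end Pool.Agent.Results.MP_2da123_co.DimFive
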